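import Pool.Agent.Lib.MP_8dad47_al.Defs
import Pool.Agent.Lib.MP_8dad47_al.Sanity

namespace Pool.Agent.Results.MP_8dad47_al.GenerationDegree

open Pool.Agent.Lib.MP_8dad47_al

/-- Check of the definitions: the Koszul differential squares to zero. -/
theorem check_complex {K : Type*} [Field K] {n : ℕ}
    (z : Finset (Fin n) → MvPolynomial (Fin n) K) : koszulD (koszulD z) = 0 :=
  koszulD_koszulD z

/-- Check of the definitions: the Koszul complex over `S` itself has homology only in homological
degree `0` and multidegree `0`, so it is a multigraded free resolution of `K`. -/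
theorem check_resolution {K : Type*} [Field K] {n : ℕ} (i : ℕ) (a : Fin n →₀ ℕ) :
    TorNeZero (⊤ : Ideal (MvPolynomial (Fin n) K)) i a ↔ i = 0 ∧ a = 0 :=
  torNeZero_top i a

/-- Check of the definitions: `HS_0(I) = I`. -/
theorem check_zero {K : Type*} [Field K] {n : ℕ} {I : Ideal (MvPolynomial (Fin n) K)}
    (hI : IsMonomialIdeal I) : HS I 0 = I :=
  hs_zero hI

/-- For every field `K`, every polymatroidal ideal `I ⊆ K[x_1, ..., x_n]`, every `i > 0` and every
`k ≥ i`, one has `HS_i(I^(k+1)) = I * HS_i(I^k)`. -/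
theorem result (K : Type*) [Field K] (n : ℕ) (I : Ideal (MvPolynomial (Fin n) K))
    (hI : IsPolymatroidal I) (i : ℕ) (hi : 0 < i) (k : ℕ) (hk : i ≤ k) :
    HS (I ^ (k + 1)) i = I * HS (I ^ k) i :=
  hs_pow_succ hI hi hk

end Pool.Agent.Results.MP_8dad47_al.GenerationDegree
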